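import Mathlib
import Pool.Agent.Zk32.Tu0

/-!
The maximal inequality for averages over finite sets of exponents with Tempelman's condition
(module for helper32)
-/

set_option autoImplicit false

open MeasureTheory Filter Topology Set

namespace Pool.Agent.Zk63.Tu

open Pool.Agent.Zk32

/-- the action -/
def act (p q : ℕ) (n : ℕ × ℕ) (x : UnitAddCircle) : UnitAddCircle := (p ^ n.1 * q ^ n.2) • x

theorem act_add (p q : ℕ) (a b : ℕ × ℕ) (x : UnitAddCircle) :
    act p q (a + b) x = act p q b (act p q a x) := by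
  unfold act
  rw [smul_smul]
  congr 1
  simp only [Prod.fst_add, Prod.snd_add, pow_add]
  ring

theorem act_mp {p q : ℕ} {ν : Measure UnitAddCircle}
    (hp : MeasurePreserving (fun x : UnitAddCircle => p • x) ν ν)
    (hq : MeasurePreserving (fun x : UnitAddCircle => q • x) ν ν) (n : ℕ × ℕ) :
    MeasurePreserving (act p q n) ν ν := by
  have key : ∀ r : ℕ, MeasurePreserving (fun x : UnitAddCircle => r • x) ν ν → ∀ k : ℕ,
      MeasurePreserving (fun x : UnitAddCircle => r ^ k • x) ν ν := by
    intro r hr k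
    induction k with
    | zero =>
      simp only [pow_zero, one_smul]
      exact MeasurePreserving.id ν
    | succ k ih =>
      have h1 : (fun x : UnitAddCircle => r ^ (k + 1) • x) =
          (fun x : UnitAddCircle => r • x) ∘ (fun x : UnitAddCircle => r ^ k • x) := by
        ext x
        simp only [Function.comp_apply]
        rw [pow_succ', mul_smul]
      rw [h1]
      exact hr.comp ih
  have h1 : act p q n = (fun x : UnitAddCircle => p ^ n.1 • x) ∘
      (fun x : UnitAddCircle => q ^ n.2 • x) := by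
    ext x
    simp only [Function.comp_apply, act]
    rw [mul_smul]
  rw [h1]
  exact (key p hp n.1).comp (key q hq n.2)

/-- the translate of a finite set -/
def tr (F : ℕ → Finset (ℕ × ℕ)) (m : ℕ × ℕ → ℕ) (b : ℕ × ℕ) : Finset (ℕ × ℕ) :=
  (F (m b)).image (fun a => b + a)

/-- the covering lemma -/
theorem cover {F : ℕ → Finset (ℕ × ℕ)} (hne : ∀ n, (F n).Nonempty) {C : ℝ} (hT : Temp C F)
    (m : ℕ × ℕ → ℕ) : ∀ (N : ℕ) (E : Finset (ℕ × ℕ)), E.card = N →
    ∃ E' ⊆ E, (∀ x ∈ E', ∀ y ∈ E', x ≠ y → Disjoint (tr F m x) (tr F m y)) ∧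
      (E.card : ℝ) ≤ C * ∑ x ∈ E', ((F (m x)).card : ℝ) := by
  intro N
  induction N using Nat.strong_induction_on with
  | _ N ih =>
    intro E hE
    rcases E.eq_empty_or_nonempty with h0 | h0
    · refine ⟨∅, Finset.empty_subset _, by simp, ?_⟩
      rw [h0]
      simp
    · obtain ⟨x, hx, hmax⟩ := Finset.exists_max_image E m h0
      obtain ⟨E1, hE1⟩ : ∃ E1, E1 = E.filter (fun y => Disjoint (tr F m y) (tr F m x)) := ⟨_, rfl⟩
      have htx : (tr F m x).Nonempty := (hne (m x)).image _
      have hxE1 : x ∉ E1 := by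
        rw [hE1, Finset.mem_filter]
        rintro ⟨-, h⟩
        rw [disjoint_self] at h
        exact htx.ne_empty h
      have hsub : E1 ⊆ E := by
        rw [hE1]
        exact Finset.filter_subset _ _
      have hlt : E1.card < N := by
        rw [← hE]
        exact Finset.card_lt_card ⟨hsub, fun h => hxE1 (h hx)⟩
      obtain ⟨E2, hE2, hdis, hcard⟩ := ih E1.card hlt E1 rfl
      have hxE2 : x ∉ E2 := fun h => hxE1 (hE2 h)
      refine ⟨insert x E2, ?_, ?_, ?_⟩
      · rw [Finset.insert_subset_iff]
        exact ⟨hx, hE2.trans hsub⟩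
      · intro a ha b hb hab
        rw [Finset.mem_insert] at ha hb
        have hd : ∀ y ∈ E2, Disjoint (tr F m y) (tr F m x) := by
          intro y hy
          have := hE2 hy
          rw [hE1, Finset.mem_filter] at this
          exact this.2
        rcases ha with rfl | ha <;> rcases hb with rfl | hb
        · exact absurd rfl hab
        · exact (hd b hb).symm
        · exact hd a ha
        · exact hdis a ha b hb hab
      · obtain ⟨G, hG, hGm⟩ := hT (m x)
        have h1 : ((E.filter (fun y => ¬ Disjoint (tr F m y) (tr F m x))).card : ℝ) ≤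
            C * (F (m x)).card := by
          refine le_trans ?_ hG
          have h2 : (E.filter (fun y => ¬ Disjoint (tr F m y) (tr F m x))).card ≤ G.card := by
            refine Finset.card_le_card_of_injOn
              (fun y : ℕ × ℕ => (((y.1 : ℤ) - x.1, (y.2 : ℤ) - x.2) : ℤ × ℤ)) ?_ ?_
            · intro y hy
              rw [Finset.mem_coe, Finset.mem_filter, Finset.not_disjoint_iff] at hy
              obtain ⟨hyE, c, hc1, hc2⟩ := hy
              unfold tr at hc1 hc2
              rw [Finset.mem_image] at hc1 hc2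
              obtain ⟨b, hb, rfl⟩ := hc1
              obtain ⟨a, ha, hab⟩ := hc2
              have h3 := hGm (m y) (hmax y hyE) a ha b hb
              have h4 := congrArg Prod.fst hab
              have h5 := congrArg Prod.snd hab
              simp only [Prod.fst_add, Prod.snd_add] at h4 h5
              have h6 : ((y.1 : ℤ) - x.1, (y.2 : ℤ) - x.2) = ((a.1 : ℤ) - b.1, (a.2 : ℤ) - b.2) := by
                rw [Prod.mk.injEq]
                constructor <;> omega
              rw [Finset.mem_coe]
              change ((y.1 : ℤ) - x.1, (y.2 : ℤ) - x.2) ∈ G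
              rw [h6]
              exact h3
            · intro y _ z _ hyz
              simp only [Prod.mk.injEq] at hyz
              exact Prod.ext (by omega) (by omega)
          exact_mod_cast h2
        have h2 : E.card = E1.card +
            (E.filter (fun y => ¬ Disjoint (tr F m y) (tr F m x))).card := by
          rw [hE1]
          exact (Finset.card_filter_add_card_filter_not _).symm
        rw [Finset.sum_insert hxE2, h2]
        push_cast
        linarith

/-- the points where one of the first averages is large -/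
def Bad (p q : ℕ) (F : ℕ → Finset (ℕ × ℕ)) (f : UnitAddCircle → ℝ) (l : ℝ) (K : ℕ) :
    Set UnitAddCircle := {x | ∃ n ≤ K, l < ave p q (F n) f x}

theorem pointwise {p q : ℕ} {F : ℕ → Finset (ℕ × ℕ)} (hne : ∀ n, (F n).Nonempty) {C : ℝ}
    (hC : 0 < C) (hT : Temp C F) {f : UnitAddCircle → ℝ} (hf0 : ∀ x, 0 ≤ f x) {l : ℝ} (hl : 0 < l)
    {K D : ℕ} (hD : ∀ n ≤ K, ∀ a ∈ F n, a.1 ≤ D ∧ a.2 ≤ D) (x : UnitAddCircle) (M : ℕ)
    (E : Finset (ℕ × ℕ)) (hE : ∀ b ∈ E, b.1 < M ∧ b.2 < M ∧ act p q b x ∈ Bad p q F f l K) :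
    (E.card : ℝ) ≤ C / l * ∑ c ∈ Finset.range (M + D) ×ˢ Finset.range (M + D), f (act p q c x) := by
  have hch : ∀ b : ℕ × ℕ, ∃ n : ℕ, b ∈ E → n ≤ K ∧ l < ave p q (F n) f (act p q b x) := by
    intro b
    by_cases hb : b ∈ E
    · obtain ⟨n, hn⟩ := (hE b hb).2.2
      exact ⟨n, fun _ => hn⟩
    · exact ⟨0, fun h => absurd h hb⟩
  choose m hm using hch
  obtain ⟨E', hE', hdis, hcard⟩ := cover hne hT m E.card E rfl
  have h1 : ∀ b ∈ E', ((F (m b)).card : ℝ) ≤ 1 / l * ∑ c ∈ tr F m b, f (act p q c x) := by
    intro b hb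
    have h2 := (hm b (hE' hb)).2
    unfold ave at h2
    have hpos : (0 : ℝ) < (F (m b)).card := by exact_mod_cast (hne (m b)).card_pos
    have h3 : ∑ c ∈ tr F m b, f (act p q c x) =
        ∑ n ∈ F (m b), f ((p ^ n.1 * q ^ n.2) • act p q b x) := by
      unfold tr
      rw [Finset.sum_image (fun a _ c _ h => add_left_cancel h)]
      refine Finset.sum_congr rfl fun n _ => ?_
      rw [act_add]
      rfl
    rw [h3]
    rw [inv_mul_eq_div, lt_div_iff₀ hpos] at h2
    rw [one_div, inv_mul_eq_div, le_div_iff₀ hl]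
    linarith
  have h2 : ∑ b ∈ E', ((F (m b)).card : ℝ) ≤
      1 / l * ∑ c ∈ Finset.range (M + D) ×ˢ Finset.range (M + D), f (act p q c x) := by
    calc ∑ b ∈ E', ((F (m b)).card : ℝ)
        ≤ ∑ b ∈ E', 1 / l * ∑ c ∈ tr F m b, f (act p q c x) := Finset.sum_le_sum h1
      _ = 1 / l * ∑ c ∈ E'.biUnion (tr F m), f (act p q c x) := by
          rw [← Finset.mul_sum, Finset.sum_biUnion]
          intro a ha b hb hab
          exact hdis a ha b hb hab
      _ ≤ 1 / l * ∑ c ∈ Finset.range (M + D) ×ˢ Finset.range (M + D), f (act p q c x) := by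
          refine mul_le_mul_of_nonneg_left ?_ (by positivity)
          refine Finset.sum_le_sum_of_subset_of_nonneg ?_ fun _ _ _ => hf0 _
          intro c hc
          rw [Finset.mem_biUnion] at hc
          obtain ⟨b, hb, hc⟩ := hc
          unfold tr at hc
          rw [Finset.mem_image] at hc
          obtain ⟨a, ha, rfl⟩ := hc
          have h3 := hE b (hE' hb)
          have h4 := hD (m b) (hm b (hE' hb)).1 a ha
          rw [Finset.mem_product, Finset.mem_range, Finset.mem_range]
          simp only [Prod.fst_add, Prod.snd_add]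
          constructor <;> omega
  calc (E.card : ℝ) ≤ C * ∑ b ∈ E', ((F (m b)).card : ℝ) := hcard
    _ ≤ C * (1 / l * ∑ c ∈ Finset.range (M + D) ×ˢ Finset.range (M + D), f (act p q c x)) :=
        mul_le_mul_of_nonneg_left h2 hC.le
    _ = _ := by ring

theorem maximal {p q : ℕ} {ν : Measure UnitAddCircle} [IsProbabilityMeasure ν]
    (hνp : MeasurePreserving (fun x : UnitAddCircle => p • x) ν ν)
    (hνq : MeasurePreserving (fun x : UnitAddCircle => q • x) ν ν)
    {F : ℕ → Finset (ℕ × ℕ)} (hne : ∀ n, (F n).Nonempty) {C : ℝ} (hC : 0 < C) (hT : Temp C F)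
    {f : UnitAddCircle → ℝ} (hf : Measurable f) (hf0 : ∀ x, 0 ≤ f x) (hfi : Integrable f ν)
    {l : ℝ} (hl : 0 < l) :
    ν.real {x | ∃ n, l < ave p q (F n) f x} ≤ C / l * ∫ x, f x ∂ν := by
  classical
  have hmp := act_mp hνp hνq
  have hfm : ∀ c : ℕ × ℕ, Measurable fun x => f (act p q c x) := fun c =>
    hf.comp (hmp c).measurable
  have hav : ∀ n, Measurable fun x => ave p q (F n) f x := by
    intro n
    unfold ave
    exact (Finset.measurable_fun_sum _ fun a _ => hfm a).const_mul _
  have hbm : ∀ K, MeasurableSet (Bad p q F f l K) := by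
    intro K
    have h1 : Bad p q F f l K = ⋃ n ∈ Finset.range (K + 1), {x | l < ave p q (F n) f x} := by
      ext x
      simp only [Bad, mem_ofPred_eq, Finset.mem_range, mem_iUnion, exists_prop, Nat.lt_succ_iff]
    rw [h1]
    exact Finset.measurableSet_biUnion _ fun n _ => measurableSet_lt measurable_const (hav n)
  have hI0 : 0 ≤ ∫ x, f x ∂ν := integral_nonneg hf0
  have hint : ∀ c : ℕ × ℕ, Integrable (fun x => f (act p q c x)) ν ∧
      ∫ x, f (act p q c x) ∂ν = ∫ x, f x ∂ν := by
    intro c
    constructor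
    · exact ((hmp c).integrable_comp hf.aestronglyMeasurable).2 hfi
    · have h1 := integral_map (hmp c).measurable.aemeasurable
        (μ := ν) (f := f) hf.aestronglyMeasurable
      rw [(hmp c).map_eq] at h1
      exact h1.symm
  -- the bound for finitely many averages
  have hK : ∀ K, ν.real (Bad p q F f l K) ≤ C / l * ∫ x, f x ∂ν := by
    intro K
    obtain ⟨D, hD⟩ : ∃ D : ℕ, ∀ n ≤ K, ∀ a ∈ F n, a.1 ≤ D ∧ a.2 ≤ D := by
      refine ⟨∑ n ∈ Finset.range (K + 1), ∑ a ∈ F n, (a.1 + a.2), fun n hn a ha => ?_⟩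
      have h1 : a.1 + a.2 ≤ ∑ a ∈ F n, (a.1 + a.2) :=
        Finset.single_le_sum (f := fun a : ℕ × ℕ => a.1 + a.2) (fun _ _ => Nat.zero_le _) ha
      have h2 : ∑ a ∈ F n, (a.1 + a.2) ≤ ∑ n ∈ Finset.range (K + 1), ∑ a ∈ F n, (a.1 + a.2) :=
        Finset.single_le_sum (f := fun n => ∑ a ∈ F n, (a.1 + a.2)) (fun _ _ => Nat.zero_le _)
          (Finset.mem_range.2 (Nat.lt_succ_of_le hn))
      constructor <;> omega
    have hM : ∀ M : ℕ, (M : ℝ) ^ 2 * ν.real (Bad p q F f l K) ≤
        C / l * (((M : ℝ) + D) ^ 2 * ∫ x, f x ∂ν) := by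
      intro M
      obtain ⟨g, hg⟩ : ∃ g : UnitAddCircle → ℝ, g = (Bad p q F f l K).indicator fun _ => (1 : ℝ) :=
        ⟨_, rfl⟩
      have hgm : Measurable g := by
        rw [hg]
        exact measurable_const.indicator (hbm K)
      have hgi : Integrable g ν := by
        rw [hg]
        exact (integrable_const 1).indicator (hbm K)
      have hgI : ∫ x, g x ∂ν = ν.real (Bad p q F f l K) := by
        rw [hg, integral_indicator (hbm K)]
        simp
      have hgc : ∀ c : ℕ × ℕ, Integrable (fun x => g (act p q c x)) ν ∧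
          ∫ x, g (act p q c x) ∂ν = ∫ x, g x ∂ν := by
        intro c
        constructor
        · exact ((hmp c).integrable_comp hgm.aestronglyMeasurable).2 hgi
        · have h1 := integral_map (hmp c).measurable.aemeasurable
            (μ := ν) (f := g) hgm.aestronglyMeasurable
          rw [(hmp c).map_eq] at h1
          exact h1.symm
      have h1 : ∫ x, ∑ b ∈ Finset.range M ×ˢ Finset.range M, g (act p q b x) ∂ν ≤
          ∫ x, C / l * ∑ c ∈ Finset.range (M + D) ×ˢ Finset.range (M + D), f (act p q c x) ∂ν := by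
        refine integral_mono (integrable_finsetSum _ fun c _ => (hgc c).1)
          ((integrable_finsetSum _ fun c _ => (hint c).1).const_mul _) fun x => ?_
        have h2 : ∑ b ∈ Finset.range M ×ˢ Finset.range M, g (act p q b x) =
            (((Finset.range M ×ˢ Finset.range M).filter
              (fun b => act p q b x ∈ Bad p q F f l K)).card : ℝ) := by
          rw [Finset.card_filter, Nat.cast_sum]
          refine Finset.sum_congr rfl fun b _ => ?_
          rw [hg, Set.indicator_apply]
          split_ifs <;> simp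
        simp only
        rw [h2]
        refine pointwise hne hC hT hf0 hl hD x M _ fun b hb => ?_
        rw [Finset.mem_filter, Finset.mem_product, Finset.mem_range, Finset.mem_range] at hb
        exact ⟨hb.1.1, hb.1.2, hb.2⟩
      rw [integral_finsetSum _ fun c _ => (hgc c).1, integral_const_mul,
        integral_finsetSum _ fun c _ => (hint c).1] at h1
      simp only [(hgc _).2, (hint _).2, hgI, Finset.sum_const, Finset.card_product,
        Finset.card_range, nsmul_eq_mul] at h1
      push_cast at h1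
      calc (M : ℝ) ^ 2 * ν.real (Bad p q F f l K) = (M : ℝ) * M * ν.real (Bad p q F f l K) := by ring
        _ ≤ C / l * (((M : ℝ) + D) * (M + D) * ∫ x, f x ∂ν) := h1
        _ = _ := by ring
    -- the limit
    have hlim : Tendsto (fun M : ℕ => C / l * ((1 + (D : ℝ) / M) ^ 2 * ∫ x, f x ∂ν)) atTop
        (𝓝 (C / l * ((1 + 0) ^ 2 * ∫ x, f x ∂ν))) := by
      have h1 : Tendsto (fun M : ℕ => (D : ℝ) / M) atTop (𝓝 0) :=
        tendsto_const_div_atTop_nhds_zero_nat _
      exact (((h1.const_add 1).pow 2).mul_const _).const_mul _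
    have h1 : ν.real (Bad p q F f l K) ≤ C / l * ((1 + 0) ^ 2 * ∫ x, f x ∂ν) := by
      refine ge_of_tendsto hlim ?_
      filter_upwards [eventually_gt_atTop 0] with M hM0
      have hMr : (0 : ℝ) < M := by exact_mod_cast hM0
      have h2 := hM M
      have h3 : C / l * (((M : ℝ) + D) ^ 2 * ∫ x, f x ∂ν) =
          (M : ℝ) ^ 2 * (C / l * ((1 + (D : ℝ) / M) ^ 2 * ∫ x, f x ∂ν)) := by
        field_simp
      rw [h3] at h2
      exact le_of_mul_le_mul_left h2 (by positivity)
    simpa using h1
  -- all the averages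
  have hU : {x | ∃ n, l < ave p q (F n) f x} = ⋃ K, Bad p q F f l K := by
    ext x
    simp only [Bad, mem_ofPred_eq, mem_iUnion]
    constructor
    · rintro ⟨n, hn⟩
      exact ⟨n, n, le_rfl, hn⟩
    · rintro ⟨K, n, -, hn⟩
      exact ⟨n, hn⟩
  have hmono : Monotone (Bad p q F f l) := by
    intro K K' hKK x hx
    obtain ⟨n, hn, h⟩ := hx
    exact ⟨n, hn.trans hKK, h⟩
  have hc0 : 0 ≤ C / l * ∫ x, f x ∂ν := by positivity
  rw [hU, Measure.real, hmono.measure_iUnion]
  refine ENNReal.toReal_le_of_le_ofReal hc0 (iSup_le fun K => ?_)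
  rw [ENNReal.le_ofReal_iff_toReal_le (measure_ne_top _ _) hc0]
  exact hK K

end Pool.Agent.Zk63.Tu
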