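import Mathlib
import Pool.Agent.Zk32.Tv0
import Pool.Agent.Zk63.Tu.Tu1

/-!
The maximal inequality for averages of bounded functions over tempered sequences of finite sets of
exponents (module for helper32)
-/

set_option autoImplicit false

open MeasureTheory Filter Topology Set

namespace Pool.Agent.Zk63.Tu

open Pool.Agent.Zk32

theorem card_tr (F : ℕ → Finset (ℕ × ℕ)) (m : ℕ × ℕ → ℕ) (b : ℕ × ℕ) :
    (tr F m b).card = (F (m b)).card :=
  Finset.card_image_of_injective _ (add_right_injective b)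

/-- the greedy choice -/
theorem greedy {F : ℕ → Finset (ℕ × ℕ)} {l : ℝ} {φ : ℕ × ℕ → ℝ}
    (h1 : ∀ c, φ c ≤ 1) (m : ℕ × ℕ → ℕ) : ∀ (N : ℕ) (E : Finset (ℕ × ℕ)), E.card = N →
    (∀ b ∈ E, l * (F (m b)).card < ∑ c ∈ tr F m b, φ c) →
    ∃ S ⊆ E, (l / 2 * ∑ s ∈ S, ((F (m s)).card : ℝ) ≤ ∑ c ∈ S.biUnion (tr F m), φ c) ∧
      ∀ e ∈ E, e ∈ S ∨ l / 2 * (F (m e)).card <
        ((tr F m e ∩ (S.filter (fun s => m e ≤ m s)).biUnion (tr F m)).card : ℝ) := by
  intro N
  induction N with
  | zero =>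
    intro E hE _
    rw [Finset.card_eq_zero] at hE
    subst hE
    exact ⟨∅, Finset.Subset.refl _, by simp, by simp⟩
  | succ N ih =>
    intro E hE hb
    have hne : E.Nonempty := Finset.card_pos.1 (by omega)
    obtain ⟨b, hbE, hmin⟩ := Finset.exists_min_image E m hne
    obtain ⟨S, hS, hQ1, hQ2⟩ := ih (E.erase b) (by rw [Finset.card_erase_of_mem hbE]; omega)
      (fun e he => hb e (Finset.mem_of_mem_erase he))
    have hSE : S ⊆ E := hS.trans (Finset.erase_subset _ _)
    have hbS : b ∉ S := fun h => (Finset.mem_erase.1 (hS h)).1 rfl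
    have hall : S.filter (fun s => m b ≤ m s) = S := by
      rw [Finset.filter_eq_self]
      exact fun s hs => hmin s (hSE hs)
    by_cases hc : ((tr F m b ∩ S.biUnion (tr F m)).card : ℝ) ≤ l / 2 * (F (m b)).card
    · refine ⟨insert b S, Finset.insert_subset hbE hSE, ?_, ?_⟩
      · rw [Finset.sum_insert hbS, Finset.biUnion_insert]
        have h2 : tr F m b ∪ S.biUnion (tr F m) =
            (tr F m b \ S.biUnion (tr F m)) ∪ S.biUnion (tr F m) := by
          rw [Finset.sdiff_union_self_eq_union]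
        rw [h2, Finset.sum_union Finset.sdiff_disjoint]
        have h3 := Finset.sum_inter_add_sum_sdiff (tr F m b) (S.biUnion (tr F m)) φ
        have h4 : ∑ c ∈ tr F m b ∩ S.biUnion (tr F m), φ c ≤
            ((tr F m b ∩ S.biUnion (tr F m)).card : ℝ) := by
          calc ∑ c ∈ tr F m b ∩ S.biUnion (tr F m), φ c
              ≤ ∑ c ∈ tr F m b ∩ S.biUnion (tr F m), (1 : ℝ) := Finset.sum_le_sum fun c _ => h1 c
            _ = _ := by simp
        have h5 := hb b hbE
        linarith
      · intro e he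
        by_cases heb : e = b
        · left
          rw [heb]
          exact Finset.mem_insert_self _ _
        · rcases hQ2 e (Finset.mem_erase.2 ⟨heb, he⟩) with h | h
          · exact Or.inl (Finset.mem_insert_of_mem h)
          · right
            refine lt_of_lt_of_le h ?_
            have h2 : tr F m e ∩ (S.filter (fun s => m e ≤ m s)).biUnion (tr F m) ⊆
                tr F m e ∩ ((insert b S).filter (fun s => m e ≤ m s)).biUnion (tr F m) := by
              refine Finset.inter_subset_inter (Finset.Subset.refl _) ?_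
              exact Finset.biUnion_subset_biUnion_of_subset_left _
                (Finset.filter_subset_filter _ (Finset.subset_insert _ _))
            exact_mod_cast Finset.card_le_card h2
    · refine ⟨S, hSE, hQ1, fun e he => ?_⟩
      by_cases heb : e = b
      · right
        rw [heb, hall]
        exact not_le.1 hc
      · exact hQ2 e (Finset.mem_erase.2 ⟨heb, he⟩)

/-- the translates which contain a given point -/
theorem card_tr_mem (F : ℕ → Finset (ℕ × ℕ)) (m : ℕ × ℕ → ℕ) (k : ℕ) (c : ℕ × ℕ)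
    (B : Finset (ℕ × ℕ)) : (B.filter (fun e => m e = k ∧ c ∈ tr F m e)).card ≤ (F k).card := by
  have h : B.filter (fun e => m e = k ∧ c ∈ tr F m e) ⊆ (F k).image (fun a => c - a) := by
    intro e he
    rw [Finset.mem_filter] at he
    obtain ⟨-, hk, hc⟩ := he
    unfold tr at hc
    rw [Finset.mem_image] at hc
    obtain ⟨a, ha, hac⟩ := hc
    rw [Finset.mem_image]
    refine ⟨a, by rw [← hk]; exact ha, ?_⟩
    rw [← hac]
    exact Prod.ext (by simp) (by simp)
  exact (Finset.card_le_card h).trans Finset.card_image_le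

theorem count {F : ℕ → Finset (ℕ × ℕ)} (hne : ∀ n, (F n).Nonempty) {C : ℝ}
    (hT : Temper C F) {l : ℝ} (hl : 0 < l) (m : ℕ × ℕ → ℕ) (E S : Finset (ℕ × ℕ))
    (hQ : ∀ e ∈ E, e ∈ S ∨ l / 2 * (F (m e)).card <
        ((tr F m e ∩ (S.filter (fun s => m e ≤ m s)).biUnion (tr F m)).card : ℝ)) :
    (E.card : ℝ) ≤ (1 + C + 2 / l) * ∑ s ∈ S, ((F (m s)).card : ℝ) := by
  classical
  obtain ⟨W, hW⟩ : ∃ W : ℝ, W = ∑ s ∈ S, ((F (m s)).card : ℝ) := ⟨_, rfl⟩
  have hF1 : ∀ k, (1 : ℝ) ≤ (F k).card := fun k => by exact_mod_cast (hne k).card_pos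
  have hSW : (S.card : ℝ) ≤ W := by
    rw [hW]
    calc (S.card : ℝ) = ∑ s ∈ S, (1 : ℝ) := by simp
      _ ≤ _ := Finset.sum_le_sum fun s _ => hF1 _
  -- the elements whose translates meet those of a higher scale
  obtain ⟨D, hD⟩ : ∃ D : ℕ × ℕ → Finset (ℕ × ℕ), D = fun s =>
    E.filter (fun e => m e < m s ∧ ¬ Disjoint (tr F m e) (tr F m s)) := ⟨_, rfl⟩
  have hDc : ∀ s, ((D s).card : ℝ) ≤ C * (F (m s)).card := by
    intro s
    obtain ⟨G, hG, hGm⟩ := hT (m s)
    refine le_trans ?_ hG
    have h2 : (D s).card ≤ G.card := by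
      rw [hD]
      refine Finset.card_le_card_of_injOn
        (fun y : ℕ × ℕ => (((y.1 : ℤ) - s.1, (y.2 : ℤ) - s.2) : ℤ × ℤ)) ?_ ?_
      · intro y hy
        rw [Finset.mem_coe, Finset.mem_filter, Finset.not_disjoint_iff] at hy
        obtain ⟨-, hlt, c, hc1, hc2⟩ := hy
        unfold tr at hc1 hc2
        rw [Finset.mem_image] at hc1 hc2
        obtain ⟨b, hb, rfl⟩ := hc1
        obtain ⟨a, ha, hab⟩ := hc2
        have h3 := hGm (m y) hlt a ha b hb
        have h4 := congrArg Prod.fst hab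
        have h5 := congrArg Prod.snd hab
        simp only [Prod.fst_add, Prod.snd_add] at h4 h5
        have h6 : ((y.1 : ℤ) - s.1, (y.2 : ℤ) - s.2) = ((a.1 : ℤ) - b.1, (a.2 : ℤ) - b.2) := by
          rw [Prod.mk.injEq]
          constructor <;> omega
        rw [Finset.mem_coe]
        change ((y.1 : ℤ) - s.1, (y.2 : ℤ) - s.2) ∈ G
        rw [h6]
        exact h3
      · intro y _ z _ hyz
        simp only [Prod.mk.injEq] at hyz
        exact Prod.ext (by omega) (by omega)
    exact_mod_cast h2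
  have hA : ((S.biUnion D).card : ℝ) ≤ C * W := by
    calc ((S.biUnion D).card : ℝ) ≤ ((∑ s ∈ S, (D s).card : ℕ) : ℝ) := by
          exact_mod_cast Finset.card_biUnion_le
      _ = ∑ s ∈ S, ((D s).card : ℝ) := by push_cast; rfl
      _ ≤ ∑ s ∈ S, C * (F (m s)).card := Finset.sum_le_sum fun s _ => hDc s
      _ = C * W := by rw [← Finset.mul_sum, hW]
  -- the other rejected elements
  obtain ⟨B, hB⟩ : ∃ B, B = E.filter (fun e => e ∉ S ∧ e ∉ S.biUnion D) := ⟨_, rfl⟩
  have hBe : ∀ e ∈ B, l / 2 * (F (m e)).card ≤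
      ∑ s ∈ S.filter (fun s => m s = m e), ((tr F m e ∩ tr F m s).card : ℝ) := by
    intro e he
    rw [hB, Finset.mem_filter] at he
    obtain ⟨heE, heS, heD⟩ := he
    have h2 := (hQ e heE).resolve_left heS
    have h3 : tr F m e ∩ (S.filter (fun s => m e ≤ m s)).biUnion (tr F m) ⊆
        (S.filter (fun s => m s = m e)).biUnion (fun s => tr F m e ∩ tr F m s) := by
      intro c hc
      rw [Finset.mem_inter, Finset.mem_biUnion] at hc
      obtain ⟨hce, s, hs, hcs⟩ := hc
      rw [Finset.mem_filter] at hs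
      rw [Finset.mem_biUnion]
      refine ⟨s, ?_, Finset.mem_inter.2 ⟨hce, hcs⟩⟩
      rw [Finset.mem_filter]
      refine ⟨hs.1, ?_⟩
      by_contra hcon
      apply heD
      rw [Finset.mem_biUnion]
      refine ⟨s, hs.1, ?_⟩
      rw [hD, Finset.mem_filter]
      exact ⟨heE, lt_of_le_of_ne hs.2 (Ne.symm hcon), Finset.not_disjoint_iff.2 ⟨c, hce, hcs⟩⟩
    refine h2.le.trans ?_
    calc ((tr F m e ∩ (S.filter (fun s => m e ≤ m s)).biUnion (tr F m)).card : ℝ)
        ≤ (((S.filter (fun s => m s = m e)).biUnion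
            (fun s => tr F m e ∩ tr F m s)).card : ℝ) := by exact_mod_cast Finset.card_le_card h3
      _ ≤ ((∑ s ∈ S.filter (fun s => m s = m e), (tr F m e ∩ tr F m s).card : ℕ) : ℝ) := by
          exact_mod_cast Finset.card_biUnion_le
      _ = _ := by push_cast; rfl
  have hBc : l / 2 * (B.card : ℝ) ≤ W := by
    have h2 : ∀ e ∈ B, l / 2 ≤ ∑ s ∈ S, if m s = m e then
        ((tr F m e ∩ tr F m s).card : ℝ) / (F (m s)).card else 0 := by
      intro e he
      have h3 := hBe e he
      have hpos : (0 : ℝ) < (F (m e)).card := lt_of_lt_of_le one_pos (hF1 _)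
      rw [← Finset.sum_filter]
      have h4 : ∑ s ∈ S.filter (fun s => m s = m e),
          ((tr F m e ∩ tr F m s).card : ℝ) / (F (m s)).card =
          (∑ s ∈ S.filter (fun s => m s = m e), ((tr F m e ∩ tr F m s).card : ℝ)) /
            (F (m e)).card := by
        rw [Finset.sum_div]
        refine Finset.sum_congr rfl fun s hs => ?_
        rw [(Finset.mem_filter.1 hs).2]
      rw [h4, le_div_iff₀ hpos]
      exact h3
    calc l / 2 * (B.card : ℝ) = ∑ e ∈ B, l / 2 := by rw [Finset.sum_const, nsmul_eq_mul]; ring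
      _ ≤ ∑ e ∈ B, ∑ s ∈ S, (if m s = m e then
          ((tr F m e ∩ tr F m s).card : ℝ) / (F (m s)).card else 0) := Finset.sum_le_sum h2
      _ = ∑ s ∈ S, ∑ e ∈ B, (if m s = m e then
          ((tr F m e ∩ tr F m s).card : ℝ) / (F (m s)).card else 0) := Finset.sum_comm
      _ ≤ ∑ s ∈ S, ((F (m s)).card : ℝ) := by
          refine Finset.sum_le_sum fun s _ => ?_
          have hpos : (0 : ℝ) < (F (m s)).card := lt_of_lt_of_le one_pos (hF1 _)
          rw [← Finset.sum_filter, ← Finset.sum_div, div_le_iff₀ hpos]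
          have h5 : ∀ e, (tr F m e ∩ tr F m s).card =
              ∑ c ∈ tr F m s, if c ∈ tr F m e then 1 else 0 := by
            intro e
            rw [Finset.inter_comm, ← Finset.filter_mem_eq_inter, Finset.card_filter]
          have h6 : ∑ e ∈ B.filter (fun e => m s = m e), (tr F m e ∩ tr F m s).card ≤
              (F (m s)).card * (F (m s)).card := by
            calc ∑ e ∈ B.filter (fun e => m s = m e), (tr F m e ∩ tr F m s).card
                = ∑ e ∈ B.filter (fun e => m s = m e),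
                    ∑ c ∈ tr F m s, (if c ∈ tr F m e then 1 else 0) :=
                  Finset.sum_congr rfl fun e _ => h5 e
              _ = ∑ c ∈ tr F m s, ∑ e ∈ B.filter (fun e => m s = m e),
                    (if c ∈ tr F m e then 1 else 0) := Finset.sum_comm
              _ ≤ ∑ c ∈ tr F m s, (F (m s)).card := by
                  refine Finset.sum_le_sum fun c _ => ?_
                  rw [← Finset.card_filter, Finset.filter_filter]
                  refine le_trans (Finset.card_le_card ?_) (card_tr_mem F m (m s) c B)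
                  intro e he
                  rw [Finset.mem_filter] at he ⊢
                  exact ⟨he.1, he.2.1.symm, he.2.2⟩
              _ = (F (m s)).card * (F (m s)).card := by
                  rw [Finset.sum_const, card_tr, smul_eq_mul]
          exact_mod_cast h6
      _ = W := hW.symm
  have hE : E ⊆ S ∪ (S.biUnion D ∪ B) := by
    intro e he
    by_cases h1 : e ∈ S
    · exact Finset.mem_union_left _ h1
    · by_cases h2 : e ∈ S.biUnion D
      · exact Finset.mem_union_right _ (Finset.mem_union_left _ h2)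
      · refine Finset.mem_union_right _ (Finset.mem_union_right _ ?_)
        rw [hB, Finset.mem_filter]
        exact ⟨he, h1, h2⟩
  have hBW : (B.card : ℝ) ≤ 2 / l * W := by
    rw [div_mul_eq_mul_div, le_div_iff₀ hl]
    linarith
  have h3 : (E.card : ℝ) ≤ S.card + ((S.biUnion D).card + B.card) := by
    have h4 := (Finset.card_le_card hE).trans
      ((Finset.card_union_le _ _).trans (Nat.add_le_add_left (Finset.card_union_le _ _) _))
    exact_mod_cast h4
  rw [← hW]
  linarith

theorem pointwiseB {p q : ℕ} {F : ℕ → Finset (ℕ × ℕ)} (hne : ∀ n, (F n).Nonempty) {C : ℝ}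
    (hC : 1 ≤ C) (hT : Temper C F) {f : UnitAddCircle → ℝ} (hf0 : ∀ x, 0 ≤ f x)
    (hf1 : ∀ x, f x ≤ 1) {l : ℝ} (hl : 0 < l) (hl1 : l ≤ 1)
    {K D : ℕ} (hD : ∀ n ≤ K, ∀ a ∈ F n, a.1 ≤ D ∧ a.2 ≤ D) (x : UnitAddCircle) (M : ℕ)
    (E : Finset (ℕ × ℕ)) (hE : ∀ b ∈ E, b.1 < M ∧ b.2 < M ∧ act p q b x ∈ Bad p q F f l K) :
    (E.card : ℝ) ≤ 8 * C / l ^ 2 *
      ∑ c ∈ Finset.range (M + D) ×ˢ Finset.range (M + D), f (act p q c x) := by
  have hch : ∀ b : ℕ × ℕ, ∃ n : ℕ, b ∈ E → n ≤ K ∧ l < ave p q (F n) f (act p q b x) := by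
    intro b
    by_cases hb : b ∈ E
    · obtain ⟨n, hn⟩ := (hE b hb).2.2
      exact ⟨n, fun _ => hn⟩
    · exact ⟨0, fun h => absurd h hb⟩
  choose m hm using hch
  have h1 : ∀ b ∈ E, l * (F (m b)).card < ∑ c ∈ tr F m b, f (act p q c x) := by
    intro b hb
    have h2 := (hm b hb).2
    unfold ave at h2
    have hpos : (0 : ℝ) < (F (m b)).card := by exact_mod_cast (hne (m b)).card_pos
    have h3 : ∑ c ∈ tr F m b, f (act p q c x) =
        ∑ n ∈ F (m b), f ((p ^ n.1 * q ^ n.2) • act p q b x) := by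
      unfold tr
      rw [Finset.sum_image (fun a _ c _ h => add_left_cancel h)]
      refine Finset.sum_congr rfl fun n _ => ?_
      rw [act_add]
      rfl
    rw [h3]
    rw [inv_mul_eq_div, lt_div_iff₀ hpos] at h2
    exact h2
  obtain ⟨S, hS, hQ1, hQ2⟩ := greedy (φ := fun c => f (act p q c x)) (fun c => hf1 _) m E.card E rfl
    h1
  have hcount := count hne hT hl m E S hQ2
  have hsub : ∑ c ∈ S.biUnion (tr F m), f (act p q c x) ≤
      ∑ c ∈ Finset.range (M + D) ×ˢ Finset.range (M + D), f (act p q c x) := by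
    refine Finset.sum_le_sum_of_subset_of_nonneg ?_ fun _ _ _ => hf0 _
    intro c hc
    rw [Finset.mem_biUnion] at hc
    obtain ⟨b, hb, hc⟩ := hc
    unfold tr at hc
    rw [Finset.mem_image] at hc
    obtain ⟨a, ha, rfl⟩ := hc
    have h3 := hE b (hS hb)
    have h4 := hD (m b) (hm b (hS hb)).1 a ha
    rw [Finset.mem_product, Finset.mem_range, Finset.mem_range]
    simp only [Prod.fst_add, Prod.snd_add]
    constructor <;> omega
  obtain ⟨W, hW⟩ : ∃ W : ℝ, W = ∑ s ∈ S, ((F (m s)).card : ℝ) := ⟨_, rfl⟩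
  rw [← hW] at hcount hQ1
  have hW0 : 0 ≤ W := hW.symm ▸ Finset.sum_nonneg fun s _ => Nat.cast_nonneg _
  obtain ⟨Sg, hS2⟩ : ∃ s : ℝ, s = ∑ c ∈ Finset.range (M + D) ×ˢ Finset.range (M + D),
    f (act p q c x) := ⟨_, rfl⟩
  rw [← hS2] at hsub ⊢
  have hWS : W ≤ 2 / l * Sg := by
    rw [div_mul_eq_mul_div, le_div_iff₀ hl]
    linarith
  have h5 : 1 + C + 2 / l ≤ 4 * C / l := by
    rw [le_div_iff₀ hl]
    have : (1 + C + 2 / l) * l = l + C * l + 2 := by field_simp
    rw [this]
    nlinarith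
  calc (E.card : ℝ) ≤ (1 + C + 2 / l) * W := hcount
    _ ≤ 4 * C / l * W := mul_le_mul_of_nonneg_right h5 hW0
    _ ≤ 4 * C / l * (2 / l * Sg) := mul_le_mul_of_nonneg_left hWS (by positivity)
    _ = 8 * C / l ^ 2 * Sg := by
        field_simp
        ring

theorem maximalB {p q : ℕ} {ν : Measure UnitAddCircle} [IsProbabilityMeasure ν]
    (hνp : MeasurePreserving (fun x : UnitAddCircle => p • x) ν ν)
    (hνq : MeasurePreserving (fun x : UnitAddCircle => q • x) ν ν)
    {F : ℕ → Finset (ℕ × ℕ)} (hne : ∀ n, (F n).Nonempty) {C : ℝ} (hC : 1 ≤ C)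
    (hT : Temper C F) {f : UnitAddCircle → ℝ} (hf : Measurable f) (hf0 : ∀ x, 0 ≤ f x)
    (hf1 : ∀ x, f x ≤ 1) {l : ℝ} (hl : 0 < l) (hl1 : l ≤ 1) :
    ν.real {x | ∃ n, l < ave p q (F n) f x} ≤ 8 * C / l ^ 2 * ∫ x, f x ∂ν := by
  classical
  have hfi : Integrable f ν :=
    Integrable.of_bound hf.aestronglyMeasurable 1 (ae_of_all _ fun x => by
      rw [Real.norm_eq_abs, abs_of_nonneg (hf0 x)]
      exact hf1 x)
  have hmp := act_mp hνp hνq
  have hfm : ∀ c : ℕ × ℕ, Measurable fun x => f (act p q c x) := fun c =>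
    hf.comp (hmp c).measurable
  have hav : ∀ n, Measurable fun x => ave p q (F n) f x := by
    intro n
    unfold ave
    exact (Finset.measurable_fun_sum _ fun a _ => hfm a).const_mul _
  have hbm : ∀ K, MeasurableSet (Bad p q F f l K) := by
    intro K
    have h1 : Bad p q F f l K = ⋃ n ∈ Finset.range (K + 1), {x | l < ave p q (F n) f x} := by
      ext x
      simp only [Bad, mem_ofPred_eq, Finset.mem_range, mem_iUnion, exists_prop, Nat.lt_succ_iff]
    rw [h1]
    exact Finset.measurableSet_biUnion _ fun n _ => measurableSet_lt measurable_const (hav n)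
  have hI0 : 0 ≤ ∫ x, f x ∂ν := integral_nonneg hf0
  have hC0 : 0 < C := by linarith
  have hint : ∀ c : ℕ × ℕ, Integrable (fun x => f (act p q c x)) ν ∧
      ∫ x, f (act p q c x) ∂ν = ∫ x, f x ∂ν := by
    intro c
    constructor
    · exact ((hmp c).integrable_comp hf.aestronglyMeasurable).2 hfi
    · have h1 := integral_map (hmp c).measurable.aemeasurable
        (μ := ν) (f := f) hf.aestronglyMeasurable
      rw [(hmp c).map_eq] at h1
      exact h1.symm
  obtain ⟨A, hA⟩ : ∃ A : ℝ, A = 8 * C / l ^ 2 := ⟨_, rfl⟩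
  have hA0 : 0 < A := by rw [hA]; positivity
  rw [← hA]
  -- the bound for finitely many averages
  have hK : ∀ K, ν.real (Bad p q F f l K) ≤ A * ∫ x, f x ∂ν := by
    intro K
    obtain ⟨D, hD⟩ : ∃ D : ℕ, ∀ n ≤ K, ∀ a ∈ F n, a.1 ≤ D ∧ a.2 ≤ D := by
      refine ⟨∑ n ∈ Finset.range (K + 1), ∑ a ∈ F n, (a.1 + a.2), fun n hn a ha => ?_⟩
      have h1 : a.1 + a.2 ≤ ∑ a ∈ F n, (a.1 + a.2) :=
        Finset.single_le_sum (f := fun a : ℕ × ℕ => a.1 + a.2) (fun _ _ => Nat.zero_le _) ha
      have h2 : ∑ a ∈ F n, (a.1 + a.2) ≤ ∑ n ∈ Finset.range (K + 1), ∑ a ∈ F n, (a.1 + a.2) :=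
        Finset.single_le_sum (f := fun n => ∑ a ∈ F n, (a.1 + a.2)) (fun _ _ => Nat.zero_le _)
          (Finset.mem_range.2 (Nat.lt_succ_of_le hn))
      constructor <;> omega
    have hM : ∀ M : ℕ, (M : ℝ) ^ 2 * ν.real (Bad p q F f l K) ≤
        A * (((M : ℝ) + D) ^ 2 * ∫ x, f x ∂ν) := by
      intro M
      obtain ⟨g, hg⟩ : ∃ g : UnitAddCircle → ℝ, g = (Bad p q F f l K).indicator fun _ => (1 : ℝ) :=
        ⟨_, rfl⟩
      have hgm : Measurable g := by
        rw [hg]
        exact measurable_const.indicator (hbm K)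
      have hgi : Integrable g ν := by
        rw [hg]
        exact (integrable_const 1).indicator (hbm K)
      have hgI : ∫ x, g x ∂ν = ν.real (Bad p q F f l K) := by
        rw [hg, integral_indicator (hbm K)]
        simp
      have hgc : ∀ c : ℕ × ℕ, Integrable (fun x => g (act p q c x)) ν ∧
          ∫ x, g (act p q c x) ∂ν = ∫ x, g x ∂ν := by
        intro c
        constructor
        · exact ((hmp c).integrable_comp hgm.aestronglyMeasurable).2 hgi
        · have h1 := integral_map (hmp c).measurable.aemeasurable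
            (μ := ν) (f := g) hgm.aestronglyMeasurable
          rw [(hmp c).map_eq] at h1
          exact h1.symm
      have h1 : ∫ x, ∑ b ∈ Finset.range M ×ˢ Finset.range M, g (act p q b x) ∂ν ≤
          ∫ x, A * ∑ c ∈ Finset.range (M + D) ×ˢ Finset.range (M + D), f (act p q c x) ∂ν := by
        refine integral_mono (integrable_finsetSum _ fun c _ => (hgc c).1)
          ((integrable_finsetSum _ fun c _ => (hint c).1).const_mul _) fun x => ?_
        have h2 : ∑ b ∈ Finset.range M ×ˢ Finset.range M, g (act p q b x) =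
            (((Finset.range M ×ˢ Finset.range M).filter
              (fun b => act p q b x ∈ Bad p q F f l K)).card : ℝ) := by
          rw [Finset.card_filter, Nat.cast_sum]
          refine Finset.sum_congr rfl fun b _ => ?_
          rw [hg, Set.indicator_apply]
          split_ifs <;> simp
        simp only
        rw [h2, hA]
        refine pointwiseB hne hC hT hf0 hf1 hl hl1 hD x M _ fun b hb => ?_
        rw [Finset.mem_filter, Finset.mem_product, Finset.mem_range, Finset.mem_range] at hb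
        exact ⟨hb.1.1, hb.1.2, hb.2⟩
      rw [integral_finsetSum _ fun c _ => (hgc c).1, integral_const_mul,
        integral_finsetSum _ fun c _ => (hint c).1] at h1
      simp only [(hgc _).2, (hint _).2, hgI, Finset.sum_const, Finset.card_product,
        Finset.card_range, nsmul_eq_mul] at h1
      push_cast at h1
      calc (M : ℝ) ^ 2 * ν.real (Bad p q F f l K) = (M : ℝ) * M * ν.real (Bad p q F f l K) := by ring
        _ ≤ A * (((M : ℝ) + D) * (M + D) * ∫ x, f x ∂ν) := h1
        _ = _ := by ring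
    -- the limit
    have hlim : Tendsto (fun M : ℕ => A * ((1 + (D : ℝ) / M) ^ 2 * ∫ x, f x ∂ν)) atTop
        (𝓝 (A * ((1 + 0) ^ 2 * ∫ x, f x ∂ν))) := by
      have h1 : Tendsto (fun M : ℕ => (D : ℝ) / M) atTop (𝓝 0) :=
        tendsto_const_div_atTop_nhds_zero_nat _
      exact (((h1.const_add 1).pow 2).mul_const _).const_mul _
    have h1 : ν.real (Bad p q F f l K) ≤ A * ((1 + 0) ^ 2 * ∫ x, f x ∂ν) := by
      refine ge_of_tendsto hlim ?_
      filter_upwards [eventually_gt_atTop 0] with M hM0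
      have hMr : (0 : ℝ) < M := by exact_mod_cast hM0
      have h2 := hM M
      have h3 : A * (((M : ℝ) + D) ^ 2 * ∫ x, f x ∂ν) =
          (M : ℝ) ^ 2 * (A * ((1 + (D : ℝ) / M) ^ 2 * ∫ x, f x ∂ν)) := by
        field_simp
      rw [h3] at h2
      exact le_of_mul_le_mul_left h2 (by positivity)
    simpa using h1
  -- all the averages
  have hU : {x | ∃ n, l < ave p q (F n) f x} = ⋃ K, Bad p q F f l K := by
    ext x
    simp only [Bad, mem_ofPred_eq, mem_iUnion]
    constructor
    · rintro ⟨n, hn⟩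
      exact ⟨n, n, le_rfl, hn⟩
    · rintro ⟨K, n, -, hn⟩
      exact ⟨n, hn⟩
  have hmono : Monotone (Bad p q F f l) := by
    intro K K' hKK x hx
    obtain ⟨n, hn, h⟩ := hx
    exact ⟨n, hn.trans hKK, h⟩
  have hc0 : 0 ≤ A * ∫ x, f x ∂ν := by positivity
  rw [hU, Measure.real, hmono.measure_iUnion]
  refine ENNReal.toReal_le_of_le_ofReal hc0 (iSup_le fun K => ?_)
  rw [ENNReal.le_ofReal_iff_toReal_le (measure_ne_top _ _) hc0]
  exact hK K

end Pool.Agent.Zk63.Tu
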